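import Pool.Agent.KS6_44.UU.SL2

/-!
The algebraic heart of the six-factor theorem: `diag(T X, 1_4)` is good.
-/

namespace Pool.Agent.KS6_44.Six

open Matrix Pool.Agent.KS6_44.UU

/-- the algebraic heart -/
theorem GK4_of {T T' M1 N1 M2 N2 Y Y' X1 X1' : Mat 2 2} (hT : Good T) (hT2 : T' * T = 1)
    (h1 : 1 - N1 * M1 = Y) (h2 : 1 - N2 * M2 = Y' * X1) (hY : Y * Y' = 1) (hY' : Y' * Y = 1)
    (hX1 : X1 * X1' = 1) (hX1' : X1' * X1 = 1) (hc : X1 * Y = Y * X1) (hX : Good X1) :
    GK (2 + 2) (T * ((1 - M2 * N2) * (1 - M1 * N1))) := by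
  have hsplit : Good (blk (Y + (N1 * M2) * (N2 * M1)) (-(N1 * M2)) (-(Y' * X1 * (N2 * M1))) (Y' * X1)) := by
    generalize N1 * M2 = P
    generalize N2 * M1 = Q
    -- `E = Y' X1`, `E' = X1' Y`
    have hE1 : Y' * X1 * (X1' * Y) = 1 := by
      calc Y' * X1 * (X1' * Y) = Y' * (X1 * X1') * Y := by simp only [Matrix.mul_assoc]
        _ = 1 := by rw [hX1, Matrix.mul_one, hY']
    have hE2 : X1' * Y * (Y' * X1) = 1 := by
      calc X1' * Y * (Y' * X1) = X1' * (Y * Y') * X1 := by simp only [Matrix.mul_assoc]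
        _ = 1 := by rw [hY, Matrix.mul_one, hX1']
    have hc' : Y * X1' = X1' * Y := by
      calc Y * X1' = X1' * (X1 * Y) * X1' := by
            rw [← Matrix.mul_assoc, hX1', Matrix.one_mul]
        _ = X1' * Y * (X1 * X1') := by rw [hc]; simp only [Matrix.mul_assoc]
        _ = X1' * Y := by rw [hX1, Matrix.mul_one]
    obtain ⟨E, hE⟩ : ∃ E, E = Y' * X1 := ⟨_, rfl⟩
    obtain ⟨E', hE'⟩ : ∃ E', E' = X1' * Y := ⟨_, rfl⟩
    rw [← hE, ← hE'] at hE1 hE2
    rw [← hE]
    have key := GK.split (k := 0) (A := Y + P * Q) (B := -P) (C := -(E * Q)) (D := E)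
      (T := X1) (T' := X1') (P * E' + 1) (Q + E' * (X1 - Y)) ?_ hX hX1' ?_
    · exact GK.zero_iff.1 key
    · have : Y + P * Q + (P * E' + 1) * -(E * Q) + -P * (Q + E' * (X1 - Y)) +
          (P * E' + 1) * E * (Q + E' * (X1 - Y)) =
          Y + P * Q - P * (E' * E) * Q - E * Q - P * Q - P * (E' * (X1 - Y)) +
          P * (E' * E) * Q + P * (E' * E) * (E' * (X1 - Y)) + E * Q + (E * E') * (X1 - Y) := by
        noncomm_ring
      rw [this, hE1, hE2]
      simp only [Matrix.mul_one, Matrix.one_mul]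
      abel
    · rw [GK.zero_iff]
      have e1 : -(E * Q) + E * (Q + E' * (X1 - Y)) = X1 - Y := by
        have : -(E * Q) + E * (Q + E' * (X1 - Y)) = (E * E') * (X1 - Y) := by noncomm_ring
        rw [this, hE1, Matrix.one_mul]
      have e2 : -P + (P * E' + 1) * E = E := by
        have : -P + (P * E' + 1) * E = -P + P * (E' * E) + E := by noncomm_ring
        rw [this, hE2, Matrix.mul_one]; abel
      rw [e1, e2]
      have e3 : E - (X1 - Y) * X1' * E = 1 := by
        have : E - (X1 - Y) * X1' * E = E - (X1 * X1') * E + Y * X1' * E := by noncomm_ring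
        rw [this, hX1, Matrix.one_mul, sub_self, zero_add, hc', ← hE', hE2]
      rw [e3]
      exact Good.one
  refine GK.strip (k := 0) (j := 2 + 2) ?_
  refine GK.split (k := 0) (T := T) (T' := T') (T * hcat ((1 - M2 * N2) * M1) M2)
    (vcat N1 N2) ?_ hT hT2 ?_
  · rw [Matrix.mul_zero, Matrix.zero_mul, Matrix.mul_one, add_zero, add_zero, Matrix.mul_assoc T,
      hcat_mul_vcat]
    noncomm_ring
  rw [GK.zero_iff, zero_add, zero_add, Matrix.one_mul, Matrix.mul_one, Matrix.mul_assoc _ T',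
    ← Matrix.mul_assoc T', hT2, Matrix.one_mul, vcat_mul_hcat, ← blk_one, blk_sub]
  have e1 : 1 - N1 * ((1 - M2 * N2) * M1) = Y + (N1 * M2) * (N2 * M1) := by
    rw [← h1]; noncomm_ring
  have e2 : N2 * ((1 - M2 * N2) * M1) = Y' * X1 * (N2 * M1) := by
    rw [← h2]; noncomm_ring
  rw [e1, e2, h2, zero_sub, zero_sub]
  exact hsplit

end Pool.Agent.KS6_44.Six
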