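import Pool.Agent.KS6_44.Six.Alg4

/-!
`diag(A, 1_4)` is a product `u v u' v'` of upper and lower unitriangular matrices, for every
`A` in `SL(2, ℤ)`.
-/

namespace Pool.Agent.KS6_44.Six

open Matrix Pool.Agent.KS6_44.UU

theorem GK4_X {a b c d : ℤ} (hdet : a * d - b * c = 1) (hb : b ≠ 0) (hc : c ≠ 0) (v : ℕ)
    (h1 : b ∣ 1 - d ^ (v + 1)) (h2 : c ∣ 1 - d ^ v) {T T' h h' : Mat 2 2} (hT : Good T)
    (hT2 : T' * T = 1) (hh : h * h' = 1) (hh' : h' * h = 1) :
    GK (2 + 2) (T * (h' * !![a, b; c, d] * h)) := by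
  obtain ⟨X, hX⟩ : ∃ X : Mat 2 2, X = !![a, b; c, d] := ⟨_, rfl⟩
  obtain ⟨X', hX'⟩ : ∃ X : Mat 2 2, X = !![d, -b; -c, a] := ⟨_, rfl⟩
  obtain ⟨X1, hX1⟩ : ∃ X : Mat 2 2, X = !![a, 1; b * c, d] := ⟨_, rfl⟩
  obtain ⟨X1', hX1'⟩ : ∃ X : Mat 2 2, X = !![d, -1; -(b * c), a] := ⟨_, rfl⟩
  obtain ⟨N2, hN2⟩ : ∃ X : Mat 2 2, X = !![0, 1; c, d - a] := ⟨_, rfl⟩
  obtain ⟨N1, hN1⟩ : ∃ X : Mat 2 2, X = !![1, 0; 0, b] := ⟨_, rfl⟩
  have e1 : X * X' = 1 := by
    rw [hX, hX']; ext i j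
    fin_cases i <;> fin_cases j <;> simp [Matrix.mul_apply, Fin.sum_univ_two] <;> linarith
  have e1' : X' * X = 1 := by
    rw [hX, hX']; ext i j
    fin_cases i <;> fin_cases j <;> simp [Matrix.mul_apply, Fin.sum_univ_two] <;> linarith
  have e2 : X1 * X1' = 1 := by
    rw [hX1, hX1']; ext i j
    fin_cases i <;> fin_cases j <;> simp [Matrix.mul_apply, Fin.sum_univ_two] <;> linarith
  have e2' : X1' * X1 = 1 := by
    rw [hX1, hX1']; ext i j
    fin_cases i <;> fin_cases j <;> simp [Matrix.mul_apply, Fin.sum_univ_two] <;> linarith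
  have c1 : N1 * X = X1 * N1 := by
    rw [hN1, hX, hX1]; ext i j
    fin_cases i <;> fin_cases j <;> simp [Matrix.mul_apply, Fin.sum_univ_two] <;> ring
  have c2 : N2 * X = X1 * N2 := by
    rw [hN2, hX, hX1]; ext i j
    fin_cases i <;> fin_cases j <;> simp [Matrix.mul_apply, Fin.sum_univ_two] <;> ring
  have c2' : N2 * X' = X1' * N2 := by
    calc N2 * X' = X1' * X1 * (N2 * X') := by rw [e2', Matrix.one_mul]
      _ = X1' * (X1 * N2) * X' := by simp only [Matrix.mul_assoc]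
      _ = X1' * N2 * (X * X') := by rw [← c2]; simp only [Matrix.mul_assoc]
      _ = X1' * N2 := by rw [e1, Matrix.mul_one]
  -- M1
  obtain ⟨M1, hM1⟩ : ∃ M1, M1 * N1 = 1 - X ^ (v + 1) := by
    rw [hN1]
    obtain ⟨p1, p2⟩ := pow_mod_b a b c d (v + 1)
    rw [← hX] at p1 p2
    refine exists_right_b ?_ ?_
    · simpa using p1
    · have : (1 - X ^ (v + 1)) 1 1 = (1 - d ^ (v + 1)) - ((X ^ (v + 1)) 1 1 - d ^ (v + 1)) := by
        simp
      rw [this]; exact dvd_sub h1 p2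
  obtain ⟨M2, hM2⟩ : ∃ M2, M2 * N2 = 1 - X' ^ v := by
    obtain ⟨p1, p2⟩ := pow_mod_c a b c d v
    rw [← hX'] at p1 p2
    obtain ⟨K, hK⟩ : ∃ K : Mat 2 2, K * !![c, 0; 0, 1] = 1 - X' ^ v := by
      refine exists_right_c ?_ ?_
      · have : (1 - X' ^ v) 0 0 = (1 - d ^ v) - ((X' ^ v) 0 0 - d ^ v) := by
          simp
        rw [this]; exact dvd_sub h2 p2
      · simpa using p1
    refine ⟨K * !![a - d, 1; 1, 0], ?_⟩
    rw [← hK, hN2, Matrix.mul_assoc]
    congr 1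
    ext i j
    fin_cases i <;> fin_cases j <;> simp [Matrix.mul_apply, Fin.sum_univ_two]
  have n1 : N1 * M1 = 1 - X1 ^ (v + 1) := by
    refine cancel_right (N := N1) (by rw [hN1]; simpa [Matrix.det_fin_two] using hb) ?_
    rw [Matrix.mul_assoc, hM1, Matrix.mul_sub, Matrix.sub_mul, comm_pow c1, Matrix.mul_one,
      Matrix.one_mul]
  have n2 : N2 * M2 = 1 - X1' ^ v := by
    refine cancel_right (N := N2) (by rw [hN2]; simpa [Matrix.det_fin_two] using hc) ?_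
    rw [Matrix.mul_assoc, hM2, Matrix.mul_sub, Matrix.sub_mul, comm_pow c2', Matrix.mul_one,
      Matrix.one_mul]
  have hpow : ∀ (P P' : Mat 2 2) (n : ℕ), P * P' = 1 → P' * P = 1 → P ^ n * P' ^ n = 1 := by
    intro P P' n q1 q2
    have hcm : Commute P P' := by rw [Commute, SemiconjBy, q1, q2]
    rw [← hcm.mul_pow, q1, one_pow]
  have key := GK4_of (T := T) (T' := T') (M1 := h' * M1) (N1 := N1 * h) (M2 := h' * M2)
    (N2 := N2 * h) (Y := X1 ^ (v + 1)) (Y' := X1' ^ (v + 1)) (X1 := X1) (X1' := X1') hT hT2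
    ?_ ?_ ?_ ?_ e2 e2' ?_ ?_
  · have z1 : 1 - h' * M1 * (N1 * h) = h' * X ^ (v + 1) * h := by
      have : h' * M1 * (N1 * h) = h' * (M1 * N1) * h := by simp only [Matrix.mul_assoc]
      rw [this, hM1, Matrix.mul_sub, Matrix.sub_mul, Matrix.mul_one, hh']; abel
    have z2 : 1 - h' * M2 * (N2 * h) = h' * X' ^ v * h := by
      have : h' * M2 * (N2 * h) = h' * (M2 * N2) * h := by simp only [Matrix.mul_assoc]
      rw [this, hM2, Matrix.mul_sub, Matrix.sub_mul, Matrix.mul_one, hh']; abel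
    rw [z1, z2] at key
    have : h' * X' ^ v * h * (h' * X ^ (v + 1) * h) = h' * X * h := by
      calc h' * X' ^ v * h * (h' * X ^ (v + 1) * h)
          = h' * X' ^ v * (h * h') * X ^ (v + 1) * h := by simp only [Matrix.mul_assoc]
        _ = h' * ((X' ^ v * X ^ v) * X) * h := by
            rw [hh, Matrix.mul_one, pow_succ]; simp only [Matrix.mul_assoc]
        _ = h' * X * h := by rw [hpow X' X v e1' e1, Matrix.one_mul]
    rw [this, hX] at key
    exact key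
  · have : N1 * h * (h' * M1) = N1 * (h * h') * M1 := by simp only [Matrix.mul_assoc]
    rw [this, hh, Matrix.mul_one, n1]; abel
  · have : N2 * h * (h' * M2) = N2 * (h * h') * M2 := by simp only [Matrix.mul_assoc]
    rw [this, hh, Matrix.mul_one, n2, pow_succ, Matrix.mul_assoc, e2', Matrix.mul_one]; abel
  · exact hpow X1 X1' (v + 1) e2 e2'
  · exact hpow X1' X1 (v + 1) e2' e2
  · rw [← pow_succ, ← pow_succ']
  · rw [hX1]; exact good_X1 (by linarith)

lemma GK4_core {a0 b0 c0 d0 : ℤ} (hdet : a0 * d0 - b0 * c0 = 1) (hodd : Odd d0) :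
    ∃ ε k w : ℤ, (ε = 1 ∨ ε = -1) ∧ ∀ (T0 T T' : Mat 2 2), Good T → T' * T = 1 →
      T = T0 * (ε • (x12 k * x21 w)) → GK (2 + 2) (T0 * !![a0, b0; c0, d0]) := by
  obtain ⟨p, k1, hp, hp4, hpk⟩ := nt_step1 b0 d0 ⟨-c0, a0, by linarith⟩ hodd
  have hpp : Prime (p : ℤ) := Nat.prime_iff_prime_int.1 hp
  have hpd : ¬ (p : ℤ) ∣ d0 := by
    intro h
    apply hpp.not_dvd_one
    have hb : (p : ℤ) ∣ b0 := by
      have : b0 = p - k1 * d0 := by linarith
      rw [this]; exact dvd_sub dvd_rfl (Dvd.dvd.mul_left h _)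
    rw [← hdet]
    exact dvd_sub (Dvd.dvd.mul_left h _) (Dvd.dvd.mul_right hb _)
  obtain ⟨s, ε, k2, hε, hps, hs⟩ := nt_step2 hp hp4 hpd
  obtain ⟨q, v, hq, hsq, hv1, hv2⟩ := nt_step3 hp hp4 hps
  have hε2 : ε * ε = 1 := by rcases hε with h | h <;> rw [h] <;> norm_num
  obtain ⟨a1, ha1⟩ : ∃ a1 : ℤ, a1 = a0 + k1 * c0 := ⟨_, rfl⟩
  obtain ⟨c1, hc1⟩ : ∃ c1 : ℤ, c1 = c0 + k2 * a1 := ⟨_, rfl⟩
  have hdet1 : a1 * d0 - p * c0 = 1 := by rw [ha1, hpk]; linear_combination hdet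
  have hdet2 : a1 * (ε * s ^ 2) - p * c1 = 1 := by
    rw [hs, hc1]; linear_combination hdet1
  obtain ⟨t, ht⟩ : s ^ 2 ∣ (q : ℤ) - c1 := by
    have hcop : IsCoprime (s ^ 2) (p : ℤ) := by
      rw [isCoprime_comm]
      exact ((Prime.coprime_iff_not_dvd hpp).2 hps).pow_right
    refine hcop.dvd_of_dvd_mul_left ?_
    have : (p : ℤ) * ((q : ℤ) - c1) = (p * q + 1) - s ^ 2 * (a1 * ε) := by
      linear_combination hdet2
    rw [this]
    exact dvd_sub hsq (dvd_mul_right _ _)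
  -- k3
  obtain ⟨k3, hk3⟩ : ∃ k3 : ℤ, k3 = ε * t := ⟨_, rfl⟩
  have hk3' : ε * q = ε * c1 + k3 * s ^ 2 := by
    rw [hk3]; linear_combination ε * ht
  obtain ⟨a2, ha2⟩ : ∃ a2 : ℤ, a2 = ε * a1 + k3 * (ε * p) := ⟨_, rfl⟩
  have hdet3 : a2 * s ^ 2 - (ε * p) * (ε * q) = 1 := by
    rw [hk3', ha2]; linear_combination hdet2 - p * c1 * hε2
  have hs0 : s ≠ 0 := by rintro rfl; exact hps (dvd_zero _)
  have hε0 : ε ≠ 0 := by rintro rfl; simp at hε2
  refine ⟨ε, -k1, -k2 - k3, hε, ?_⟩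
  intro T0 T T' hT hT' hTT
  have hX : (!![a2, ε * p; ε * q, s ^ 2] : Mat 2 2) =
      ε • (x21 k2 * (x12 k1 * !![a0, b0; c0, d0]) * x21 k3) := by
    unfold x12 x21
    have e0 : ε * (ε * s ^ 2) = s ^ 2 := by rw [← mul_assoc, hε2, one_mul]
    ext i j
    fin_cases i <;> fin_cases j <;> simp [Matrix.mul_apply, Fin.sum_univ_two]
    · rw [ha2, ha1, hpk]; ring
    · left; linarith
    · left
      rw [← hpk, ← ha1, hk3]
      linear_combination ht + hc1 + ε * t * hs - s ^ 2 * t * hε2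
    · rw [← e0, hs, hpk]; ring
  have key := GK4_X (a := a2) (b := ε * p) (c := ε * q) (d := s ^ 2) hdet3
    (mul_ne_zero hε0 hpp.ne_zero) (mul_ne_zero hε0 (Nat.prime_iff_prime_int.1 hq).ne_zero) v
    (by
      rcases hε with h | h <;> rw [h]
      · simpa using hv1
      · simpa using hv1)
    (by
      rcases hε with h | h <;> rw [h]
      · simpa using hv2
      · simpa using hv2)
    (T := T) (T' := T') (h := x21 (-k3)) (h' := x21 k3) hT hT'
    (by rw [x21_mul, neg_add_cancel, x21_zero]) (by rw [x21_mul, add_neg_cancel, x21_zero])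
  have : T * (x21 k3 * !![a2, ε * p; ε * q, s ^ 2] * x21 (-k3)) = T0 * !![a0, b0; c0, d0] := by
    rw [hTT, hX, Matrix.mul_assoc T0]
    congr 1
    generalize (!![a0, b0; c0, d0] : Mat 2 2) = A
    calc (ε • (x12 (-k1) * x21 (-k2 - k3))) *
          (x21 k3 * (ε • (x21 k2 * (x12 k1 * A) * x21 k3)) * x21 (-k3))
        = (ε * ε) • (x12 (-k1) * (x21 (-k2 - k3) * x21 k3 * x21 k2) * (x12 k1 * A) *
            (x21 k3 * x21 (-k3))) := by
          simp only [Matrix.mul_smul, Matrix.smul_mul, smul_smul, Matrix.mul_assoc]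
      _ = A := by
          rw [hε2, one_smul, x21_mul, x21_mul, x21_mul, add_neg_cancel, x21_zero, Matrix.mul_one]
          have : -k2 - k3 + k3 + k2 = 0 := by ring
          rw [this, x21_zero, Matrix.mul_one, ← Matrix.mul_assoc, x12_mul, neg_add_cancel, x12_zero,
            Matrix.one_mul]
  rw [this] at key
  exact key

theorem GK4_all (A : Mat 2 2) (hA : A.det = 1) : GK (2 + 2) A := by
  rw [Matrix.det_fin_two] at hA
  have hA' : A = !![A 0 0, A 0 1; A 1 0, A 1 1] := by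
    ext i j; fin_cases i <;> fin_cases j <;> simp
  rcases Int.even_or_odd (A 1 1) with he | ho
  · have hb : Odd (A 0 1) := by
      by_contra hb
      rw [Int.not_odd_iff_even] at hb
      have : Even (A 0 0 * A 1 1 - A 0 1 * A 1 0) := (he.mul_left _).sub (hb.mul_right _)
      rw [hA] at this
      exact absurd this (by decide)
    have hodd : Odd (A 1 1 - A 0 1) := he.sub_odd hb
    obtain ⟨ε, k, w, hε, H⟩ := GK4_core (a0 := A 0 0) (b0 := A 0 1) (c0 := A 1 0 - A 0 0)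
      (d0 := A 1 1 - A 0 1) (by linear_combination hA) hodd
    have := H (x21 1) (x21 1 * (ε • (x12 k * x21 w))) ((ε • (x21 (-w) * x12 (-k))) * x21 (-1))
      (good_eps' hε k w) (by
        calc (ε • (x21 (-w) * x12 (-k))) * x21 (-1) * (x21 1 * (ε • (x12 k * x21 w)))
            = (ε • (x21 (-w) * x12 (-k))) * (x21 (-1) * x21 1) * (ε • (x12 k * x21 w)) := by
              simp only [Matrix.mul_assoc]
          _ = 1 := by rw [x21_mul, neg_add_cancel, x21_zero, Matrix.mul_one, inv_eps hε]) rfl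
    have e : x21 1 * !![A 0 0, A 0 1; A 1 0 - A 0 0, A 1 1 - A 0 1] = A := by
      unfold x21
      ext i j; fin_cases i <;> fin_cases j <;> simp [Matrix.mul_apply, Fin.sum_univ_two]
    rw [e] at this
    exact this
  · obtain ⟨ε, k, w, hε, H⟩ := GK4_core (a0 := A 0 0) (b0 := A 0 1) (c0 := A 1 0)
      (d0 := A 1 1) (by linear_combination hA) ho
    have := H 1 (ε • (x12 k * x21 w)) (ε • (x21 (-w) * x12 (-k))) (good_eps hε k w)
      (inv_eps hε k w) (by rw [Matrix.one_mul])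
    rw [Matrix.one_mul, ← hA'] at this
    exact this

end Pool.Agent.KS6_44.Six
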