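import Pool.Agent.KS6_44.Six.Arith4
import Pool.Agent.KS6_44.UU.Growth

/-!
Reduction of a matrix of determinant one to `diag(A, 1)` with `A` in `SL(2, ℤ)`, up to one upper
factor on the left and lower, upper, lower factors on the right.
-/

namespace Pool.Agent.KS6_44.Six

open Matrix Pool.Agent.KS6_44.UU

/-- a unimodular row `(c, d)` with `c` of length at least two: `c + d y` is unimodular for some
`y` -/
lemma exists_unimodular {n : ℕ} (c : Fin (n + 2) → ℤ) (d : ℤ)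
    (h : ∀ p : ℕ, p.Prime → (∀ i, (p : ℤ) ∣ c i) → ¬ (p : ℤ) ∣ d) :
    ∃ y : Fin (n + 2) → ℤ, ∃ x : Fin (n + 2) → ℤ, ∑ i, (c i + d * y i) * x i = 1 := by
  by_cases hd : d = 0
  · subst hd
    obtain ⟨x, hx⟩ := bezout c (fun p hp => by
      by_contra hcon
      push Not at hcon
      exact h p hp hcon (dvd_zero _))
    exact ⟨0, x, by rw [← hx]; exact Finset.sum_congr rfl fun i _ => by simp [mul_comm]⟩
  · -- make the last entry nonzero
    obtain ⟨y1, hy1⟩ : ∃ y1 : ℤ, c 1 + d * y1 ≠ 0 := by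
      by_cases h1 : c 1 = 0
      · exact ⟨1, by rw [h1, zero_add, mul_one]; exact hd⟩
      · exact ⟨0, by rw [mul_zero, add_zero]; exact h1⟩
    obtain ⟨y0, hy0⟩ := crt1 (fun p => (p : ℤ) ∣ c 1 + d * y1 ∧ ∀ i, i ≠ 0 → i ≠ 1 → (p : ℤ) ∣ c i)
      (m := c 1 + d * y1) (a := c 0) (b := d) hy1 (fun p _ hq => hq.1) (by
        intro p hp hq h0 hpd
        refine h p hp (fun i => ?_) hpd
        by_cases hi : i = 0
        · rw [hi]; exact h0
        · by_cases hi1 : i = 1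
          · rw [hi1]
            have := dvd_sub hq.1 (Dvd.dvd.mul_right hpd y1)
            simpa using this
          · exact hq.2 i hi hi1)
    obtain ⟨y, hy⟩ : ∃ y : Fin (n + 2) → ℤ, y = fun i => if i = 0 then y0 else if i = 1 then y1 else 0 :=
      ⟨_, rfl⟩
    have h10 : (1 : Fin (n + 2)) ≠ 0 := by
      intro h; exact absurd (congrArg Fin.val h) (by simp)
    obtain ⟨x, hx⟩ := bezout (fun i => c i + d * y i) (fun p hp => by
      by_contra hcon
      push Not at hcon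
      refine hy0 p hp ⟨?_, fun i hi hi1 => ?_⟩ ?_
      · have := hcon 1
        rw [hy] at this
        simpa [h10] using this
      · have := hcon i
        rw [hy] at this
        simpa [hi, hi1] using this
      · have := hcon 0
        rw [hy] at this
        simpa [mul_comm] using this)
    exact ⟨y, x, by rw [← hx]; exact Finset.sum_congr rfl fun i _ => by ring⟩

lemma mat11 (M : Mat 1 1) (h : M 0 0 = 1) : M = 1 := by
  ext i j
  have hi : i = 0 := Subsingleton.elim _ _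
  have hj : j = 0 := Subsingleton.elim _ _
  subst hi; subst hj
  rw [h]; simp

/-- one step of the reduction -/
theorem step {n : ℕ} (g : Mat (n + 2 + 1) (n + 2 + 1)) (hg : g.det = 1) :
    ∃ (g' : Mat (n + 2) (n + 2)) (ξ x : Mat (n + 2) 1) (c y : Mat 1 (n + 2)), g'.det = 1 ∧
      g = blk 1 ξ 0 1 * blk g' 0 0 1 * blk 1 0 c 1 * blk 1 x 0 1 * blk 1 0 y 1 := by
  obtain ⟨G, b, c, d, hgb⟩ : ∃ (G : Mat (n + 2) (n + 2)) (b : Mat (n + 2) 1) (c : Mat 1 (n + 2))
    (d : Mat 1 1), g = blk G b c d := ⟨_, _, _, _, blk_eta g⟩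
  obtain ⟨H, hH, -⟩ := det_to_inv hg
  obtain ⟨G', b', c', d', hHb⟩ : ∃ (G : Mat (n + 2) (n + 2)) (b : Mat (n + 2) 1)
    (c : Mat 1 (n + 2)) (d : Mat 1 1), H = blk G b c d := ⟨_, _, _, _, blk_eta H⟩
  have hrow : ∑ i, c 0 i * b' i 0 + d 0 0 * d' 0 0 = 1 := by
    rw [hgb, hHb, blk_mul, ← blk_one] at hH
    have := congrFun (congrFun hH (Fin.natAdd (n + 2) 0)) (Fin.natAdd (n + 2) 0)
    rw [blk_nn, blk_nn] at this
    simpa [Matrix.mul_apply] using this
  obtain ⟨y, x, hxy⟩ := exists_unimodular (fun i => c 0 i) (d 0 0) (by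
    intro p hp h1 h2
    apply (Nat.prime_iff_prime_int.1 hp).not_dvd_one
    rw [← hrow]
    exact dvd_add (Finset.dvd_sum fun i _ => Dvd.dvd.mul_right (h1 i) _)
      (Dvd.dvd.mul_right h2 _))
  obtain ⟨Y, hY⟩ : ∃ Y : Mat 1 (n + 2), Y = Matrix.of fun _ i => y i := ⟨_, rfl⟩
  obtain ⟨X, hX⟩ : ∃ X : Mat (n + 2) 1, X = Matrix.of fun i _ => x i * (1 - d 0 0) := ⟨_, rfl⟩
  obtain ⟨C, hC⟩ : ∃ C : Mat 1 (n + 2), C = c + d * Y := ⟨_, rfl⟩
  have hC0 : ∀ i, C 0 i = c 0 i + d 0 0 * y i := by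
    intro i
    rw [hC, Matrix.add_apply, Matrix.mul_apply, Fin.sum_univ_one, hY]
    rfl
  have hCX : C * X + d = 1 := by
    apply mat11
    rw [Matrix.add_apply, Matrix.mul_apply]
    have : ∑ j, C 0 j * X j 0 = (∑ i, (c 0 i + d 0 0 * y i) * x i) * (1 - d 0 0) := by
      rw [Finset.sum_mul]
      refine Finset.sum_congr rfl fun i _ => ?_
      rw [hC0, hX]
      change (c 0 i + d 0 0 * y i) * (x i * (1 - d 0 0)) = _
      ring
    rw [this, hxy]; ring
  obtain ⟨ξ, hξ⟩ : ∃ ξ : Mat (n + 2) 1, ξ = (G + b * Y) * X + b := ⟨_, rfl⟩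
  obtain ⟨g', hg'⟩ : ∃ g' : Mat (n + 2) (n + 2), g' = G + b * Y - ξ * C := ⟨_, rfl⟩
  have e1 : g * blk 1 0 Y 1 * blk 1 X 0 1 * blk 1 0 (-C) 1 = blk 1 ξ 0 1 * blk g' 0 0 1 := by
    rw [hgb, blk_mul, blk_mul, blk_mul, blk_mul]
    simp only [Matrix.mul_zero, Matrix.zero_mul, add_zero, zero_add, Matrix.mul_one,
      Matrix.one_mul]
    rw [← hC, hCX, ← hξ, hg']
    congr 1
    · rw [Matrix.mul_neg, ← sub_eq_add_neg]
    · rw [Matrix.one_mul]; abel
  have i1 : blk 1 0 (-C) 1 * blk 1 0 C 1 = (1 : Mat (n + 2 + 1) (n + 2 + 1)) := by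
    rw [blk_mul]
    simp only [Matrix.mul_zero, Matrix.zero_mul, add_zero, zero_add, Matrix.mul_one,
      Matrix.one_mul, neg_add_cancel, add_neg_cancel]
    exact blk_one
  have i2 : blk 1 X 0 1 * blk 1 (-X) 0 1 = (1 : Mat (n + 2 + 1) (n + 2 + 1)) := by
    rw [blk_mul]
    simp only [Matrix.mul_zero, Matrix.zero_mul, add_zero, zero_add, Matrix.mul_one,
      Matrix.one_mul, neg_add_cancel, add_neg_cancel]
    exact blk_one
  have i3 : blk 1 0 Y 1 * blk 1 0 (-Y) 1 = (1 : Mat (n + 2 + 1) (n + 2 + 1)) := by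
    rw [blk_mul]
    simp only [Matrix.mul_zero, Matrix.zero_mul, add_zero, zero_add, Matrix.mul_one,
      Matrix.one_mul, neg_add_cancel, add_neg_cancel]
    exact blk_one
  refine ⟨g', ξ, -X, C, -Y, ?_, ?_⟩
  · have := congrArg Matrix.det e1
    rw [Matrix.det_mul, Matrix.det_mul, Matrix.det_mul, Matrix.det_mul, hg,
      (IsL.one.blk IsL.one : IsL (blk 1 0 Y 1)).det, (IsU.one.blk IsU.one : IsU (blk 1 X 0 1)).det,
      (IsL.one.blk IsL.one : IsL (blk 1 0 (-C) 1)).det,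
      (IsU.one.blk IsU.one : IsU (blk 1 ξ 0 1)).det, det_blk_diag, Matrix.det_one, mul_one,
      one_mul, one_mul, one_mul, mul_one] at this
    exact this.symm
  · rw [← e1]
    calc g = g * (blk 1 0 Y 1 * (blk 1 X 0 1 * (blk 1 0 (-C) 1 * blk 1 0 C 1) * blk 1 (-X) 0 1) *
          blk 1 0 (-Y) 1) := by
          rw [i1, Matrix.mul_one, i2, Matrix.mul_one, i3, Matrix.mul_one]
      _ = _ := by simp only [Matrix.mul_assoc]

/-- `g = u · A · v · r · v'` -/
def Red {n : ℕ} (g A : Mat n n) : Prop :=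
  ∃ u v r v' : Mat n n, IsU u ∧ IsL v ∧ IsU r ∧ IsL v' ∧ g = u * A * v * r * v'

lemma Red.refl {n : ℕ} (g : Mat n n) : Red g g :=
  ⟨1, 1, 1, 1, IsU.one, IsL.one, IsU.one, IsL.one, by simp⟩

/-- the induction step -/
lemma Red.step {n : ℕ} {g' A : Mat n n} (h : Red g' A) (ξ x : Mat n 1) (c y : Mat 1 n) :
    Red (blk 1 ξ 0 1 * blk g' 0 0 (1 : Mat 1 1) * blk 1 0 c 1 * blk 1 x 0 1 * blk 1 0 y 1)
      (blk A 0 0 1) := by
  obtain ⟨u, v, r, v', hu, hv, hr, hv', rfl⟩ := h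
  obtain ⟨r1, hr1, r2, r3⟩ := hr.inv
  obtain ⟨v1, hv1, v2, v3⟩ := hv'.inv
  -- `diag(r v') * Y(c) = Y(c (r v')⁻¹) * diag(r v')`
  have a1 : blk (u * A * v * r * v') 0 0 (1 : Mat 1 1) * blk 1 0 c 1 * blk 1 x 0 1 * blk 1 0 y 1 =
      blk (u * A * v) 0 0 1 * blk 1 0 (c * v1 * r1) 1 * blk r 0 0 1 * blk 1 (v' * x) 0 1 *
        blk v' 0 0 1 * blk 1 0 y 1 := by
    simp only [blk_mul, Matrix.mul_zero, Matrix.zero_mul, add_zero, zero_add, Matrix.mul_one,
      Matrix.one_mul]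
    have e1 : c * v1 * r1 * r = c * v1 := by
      rw [Matrix.mul_assoc _ r1, r3, Matrix.mul_one]
    have e2 : c * v1 * v' = c := by
      rw [Matrix.mul_assoc c, v3, Matrix.mul_one]
    have e3 : c * v1 * (v' * x) = c * x := by
      rw [← Matrix.mul_assoc, e2]
    rw [e1, e2, e3]
    congr 1 <;> simp only [Matrix.mul_assoc]
  refine ⟨blk 1 ξ 0 1 * blk u 0 0 1, blk v 0 0 1 * blk 1 0 (c * v1 * r1) 1,
    blk r 0 0 1 * blk 1 (v' * x) 0 1, blk v' 0 0 1 * blk 1 0 y 1,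
    (IsU.one.blk IsU.one).mul (hu.blk IsU.one), (hv.blk IsL.one).mul (IsL.one.blk IsL.one),
    (hr.blk IsU.one).mul (IsU.one.blk IsU.one), (hv'.blk IsL.one).mul (IsL.one.blk IsL.one), ?_⟩
  have a2 : blk (u * A * v) 0 0 (1 : Mat 1 1) = blk u 0 0 1 * blk A 0 0 1 * blk v 0 0 1 := by
    simp only [blk_mul, Matrix.mul_zero, Matrix.zero_mul, add_zero, zero_add, Matrix.mul_one]
  calc _ = blk 1 ξ 0 1 * (blk (u * A * v * r * v') 0 0 (1 : Mat 1 1) * blk 1 0 c 1 *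
        blk 1 x 0 1 * blk 1 0 y 1) := by simp only [Matrix.mul_assoc]
    _ = _ := by rw [a1, a2]; simp only [Matrix.mul_assoc]

/-- product of three upper and three lower unitriangular matrices -/
def IsSix {n : ℕ} (g : Mat n n) : Prop :=
  ∃ u1 v1 u2 v2 u3 v3 : Mat n n, IsU u1 ∧ IsL v1 ∧ IsU u2 ∧ IsL v2 ∧ IsU u3 ∧ IsL v3 ∧
    g = u1 * v1 * u2 * v2 * u3 * v3

lemma six_of_red {n : ℕ} {g A : Mat n n} (h : Red g A) (hA : Good A) : IsSix g := by
  obtain ⟨u, v, r, v', hu, hv, hr, hv', rfl⟩ := h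
  obtain ⟨a, b, l, s, ha, hb, hl, hs, e⟩ := hA
  obtain ⟨a', ha', a1, a2⟩ := ha.inv
  obtain ⟨b', hb', b1, b2⟩ := hb.inv
  refine ⟨u * a', l, s, b' * v, r, v', hu.mul ha', hl, hs, hb'.mul hv, hr, hv', ?_⟩
  have : A = a' * l * s * b' := by
    calc A = (a' * a) * A * (b * b') := by rw [a2, b1, Matrix.one_mul, Matrix.mul_one]
      _ = a' * (a * A * b) * b' := by simp only [Matrix.mul_assoc]
      _ = a' * l * s * b' := by rw [e]; simp only [Matrix.mul_assoc]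
  rw [this]; simp only [Matrix.mul_assoc]

theorem step' {m : ℕ} (hm : 2 ≤ m) (g : Mat (m + 1) (m + 1)) (hg : g.det = 1) :
    ∃ (g' : Mat m m) (ξ x : Mat m 1) (c y : Mat 1 m), g'.det = 1 ∧
      g = blk 1 ξ 0 1 * blk g' 0 0 1 * blk 1 0 c 1 * blk 1 x 0 1 * blk 1 0 y 1 := by
  obtain ⟨n, rfl⟩ : ∃ n, m = n + 2 := ⟨m - 2, by omega⟩
  exact step g hg

lemma blk_assoc_one {m k : ℕ} (A : Mat m m) :
    blk (blk A 0 0 (1 : Mat k k)) 0 0 (1 : Mat 1 1) = blk A 0 0 (1 : Mat (k + 1) (k + 1)) := by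
  rw [blk_assoc, blk_one]
  have e1 : (hcat (0 : Mat m k) (0 : Mat m 1)) = 0 := by
    ext i l; refine Fin.addCases (fun l => ?_) (fun l => ?_) l <;> simp
  have e2 : (vcat (0 : Mat k m) (0 : Mat 1 m)) = 0 := by
    ext l i; refine Fin.addCases (fun l => ?_) (fun l => ?_) l <;> simp
  rw [e1, e2]
  rfl

/-- every `g` of determinant one reduces to `diag(A, 1)` -/
theorem red_all (k : ℕ) : ∀ g : Mat (2 + k) (2 + k), g.det = 1 →
    ∃ A : Mat 2 2, A.det = 1 ∧ Red g (blk A 0 0 (1 : Mat k k)) := by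
  induction k with
  | zero =>
    intro g hg
    refine ⟨g, hg, ?_⟩
    have : blk g 0 0 (1 : Mat 0 0) = g := by
      refine blk_ext (fun i j => ?_) (fun i j => j.elim0) (fun i j => i.elim0)
        (fun i j => i.elim0)
      rw [blk_cc]; rfl
    rw [this]; exact Red.refl g
  | succ k ih =>
    intro g hg
    obtain ⟨g', ξ, x, c, y, hg', e⟩ := step' (m := 2 + k) (by omega) g hg
    obtain ⟨A, hA, hr⟩ := ih g' hg'
    have h := hr.step ξ x c y
    rw [← e, blk_assoc_one] at h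
    exact ⟨A, hA, h⟩

lemma good_ge_four (j : ℕ) {A : Mat 2 2} (hA : A.det = 1) :
    Good (blk A 0 0 (1 : Mat (4 + j) (4 + j))) := by
  induction j with
  | zero =>
    have h4 : ∀ k, k = 2 + 2 → GK k A := by
      rintro k rfl; exact GK4_all A hA
    exact h4 (4 + 0) (by norm_num)
  | succ j ih =>
    have : Good (blk (blk A 0 0 (1 : Mat (4 + j) (4 + j))) 0 0 (1 : Mat 1 1)) := by
      obtain ⟨H, hH, hH'⟩ := det_to_inv (A := blk A 0 0 (1 : Mat (4 + j) (4 + j)))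
        (by rw [det_blk_diag, hA, Matrix.det_one, mul_one])
      refine good_blk ih hH' ?_
      simp only [Matrix.zero_mul, Matrix.mul_zero, sub_zero]
      exact Good.one
    rw [blk_assoc_one] at this
    exact this

/-- **Six unitriangular factors suffice for all `n ≥ 6`.** -/
theorem six_of_ge {n : ℕ} (hn : 6 ≤ n) (g : Mat n n) (hg : g.det = 1) : IsSix g := by
  obtain ⟨j, rfl⟩ : ∃ j, n = 2 + (4 + j) := ⟨n - 6, by omega⟩
  obtain ⟨A, hA, hr⟩ := red_all (4 + j) g hg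
  exact six_of_red hr (good_ge_four j hA)

end Pool.Agent.KS6_44.Six
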